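import Mathlib

set_option autoImplicit false

namespace Pool.Agent.H.MP_5b3ffa_mp
open Matrix NormedSpace Polynomial

lemma ad_exp {E : Type*} [NormedRing E] [NormedAlgebra ℂ E] [CompleteSpace E] (L : Submodule ℂ E)
    (hL : IsClosed (L : Set E)) (W : E) (h : ∀ A ∈ L, W * A - A * W ∈ L) (A : E) (hA : A ∈ L) :
    exp W * A * exp (-W) ∈ L := by
  let _ : NormedAlgebra ℚ (E →L[ℂ] E) := NormedAlgebra.restrictScalars ℚ ℂ _
  have ev : ∀ (T : E →L[ℂ] E) (B : E), HasSum (fun n : ℕ => ((n.factorial : ℂ)⁻¹) • (T ^ n) B) (exp T B) :=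
    fun T B => (exp_series_hasSum_exp' (𝕂 := ℂ) T).mapL (ContinuousLinearMap.apply ℂ E B)
  obtain ⟨l, hl⟩ : ∃ l : E →L[ℂ] E, ∀ B, l B = W * B := ⟨ContinuousLinearMap.mul ℂ E W, fun _ => rfl⟩
  obtain ⟨r, hr⟩ : ∃ r : E →L[ℂ] E, ∀ B, r B = B * -W := ⟨(ContinuousLinearMap.mul ℂ E).flip (-W), fun _ => rfl⟩
  have lp : ∀ (n : ℕ) B, (l ^ n) B = W ^ n * B := fun n => by
    induction n with
    | zero => simp
    | succ n ih => intro B; rw [pow_succ, pow_succ, ContinuousLinearMap.mul_apply, ih, hl, mul_assoc]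
  have rp : ∀ (n : ℕ) B, (r ^ n) B = B * (-W) ^ n := fun n => by
    induction n with
    | zero => simp
    | succ n ih => intro B; rw [pow_succ, pow_succ', ContinuousLinearMap.mul_apply, ih, hr, mul_assoc]
  have el : ∀ B, exp l B = exp W * B := fun B => (ev l B).unique <| by
    simpa [lp] using (exp_series_hasSum_exp' (𝕂 := ℂ) W).mul_right B
  have er : ∀ B, exp r B = B * exp (-W) := fun B => (ev r B).unique <| by
    simpa [rp] using (exp_series_hasSum_exp' (𝕂 := ℂ) (-W)).mul_left B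
  have c : Commute l r := by
    ext B
    simp [hl, hr, mul_assoc]
  have e : exp W * A * exp (-W) = exp (l + r) A := by
    rw [exp_add_of_commute c, ContinuousLinearMap.mul_apply, el, er, mul_assoc]
  rw [e]
  refine hL.mem_of_tendsto (ev (l + r) A) (Filter.Eventually.of_forall fun s => L.sum_mem fun n hn => L.smul_mem _ ?_)
  clear hn
  induction n with
  | zero => simpa
  | succ n ih =>
    rw [pow_succ', ContinuousLinearMap.mul_apply, ContinuousLinearMap.add_apply, hl, hr, mul_neg, ← sub_eq_add_neg]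
    exact h _ ih

variable {d : ℕ}

abbrev Mat (d : ℕ) := Matrix (Fin d) (Fin d) ℂ

lemma qr (S : Mat d) : ∃ Q R : Mat d, Qᴴ * Q = 1 ∧ R.BlockTriangular id ∧ S = Q * R := by
  let f : Fin d → EuclideanSpace ℂ (Fin d) := fun j => WithLp.toLp 2 fun i => S i j
  have h : Module.finrank ℂ (EuclideanSpace ℂ (Fin d)) = Fintype.card (Fin d) := by simp
  let b := InnerProductSpace.gramSchmidtOrthonormalBasis h f
  refine ⟨(EuclideanSpace.basisFun (Fin d) ℂ).toBasis.toMatrix b.toBasis, b.toBasis.toMatrix f,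
    OrthonormalBasis.toMatrix_orthonormalBasis_conjTranspose_mul_self _ _,
    InnerProductSpace.gramSchmidtOrthonormalBasis_inv_isUpperTriangular h f, ?_⟩
  rw [Module.Basis.toMatrix_mul_toMatrix]
  ext i j
  simp [Module.Basis.toMatrix_apply, f]

lemma spec (X : Mat d) (hX : X.IsHermitian) : ∃ (U : Mat d) (e : Fin d → ℝ), Uᴴ * U = 1 ∧ Antitone e ∧
    X = U * diagonal (fun i => (e i : ℂ)) * Uᴴ := by
  let s := Tuple.sort fun i => -hX.eigenvalues i
  have hU : (hX.eigenvectorUnitary : Mat d)ᴴ * hX.eigenvectorUnitary = 1 := hX.eigenvectorUnitary.2.1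
  refine ⟨(hX.eigenvectorUnitary : Mat d).submatrix id s, fun i => hX.eigenvalues (s i), ?_, fun i j h => ?_, ?_⟩
  · rw [conjTranspose_submatrix, ← submatrix_mul _ _ _ _ _ Function.bijective_id, hU, submatrix_one_equiv]
  · simpa using Tuple.monotone_sort (fun i => -hX.eigenvalues i) h
  · conv_lhs => rw [hX.spectral_theorem]
    have : diagonal (fun i => (hX.eigenvalues (s i) : ℂ)) =
        (diagonal fun i => (hX.eigenvalues i : ℂ)).submatrix s s := by
      rw [submatrix_diagonal_equiv]; rfl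
    rw [this, conjTranspose_submatrix, ← submatrix_mul _ _ _ _ _ s.bijective, ← submatrix_mul _ _ _ _ _ s.bijective]
    rfl

lemma mask (e : Fin d → ℝ) (L : Submodule ℂ (Mat d))
    (h : ∀ A ∈ L, diagonal (fun i => (e i : ℂ)) * A - A * diagonal (fun i => (e i : ℂ)) ∈ L) (p : ℂ[X])
    (A : Mat d) (hA : A ∈ L) : (of fun i j => p.eval ((e i : ℂ) - e j) * A i j) ∈ L := by
  induction p using Polynomial.induction_on with
  | C a =>
    have : (of fun i j => (C a).eval ((e i : ℂ) - e j) * A i j) = a • A := by ext; simp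
    rw [this]; exact L.smul_mem _ hA
  | add p q hp hq =>
    have : (of fun i j => (p + q).eval ((e i : ℂ) - e j) * A i j) = (of fun i j => p.eval ((e i : ℂ) - e j) * A i j) +
        (of fun i j => q.eval ((e i : ℂ) - e j) * A i j) := by ext; simp [add_mul]
    rw [this]; exact L.add_mem hp hq
  | monomial n a ih =>
    have := h _ ih
    rwa [show diagonal (fun i => (e i : ℂ)) * _ - _ = of fun i j => (C a * X ^ (n + 1)).eval ((e i : ℂ) - e j) * A i j by
      ext; simp; ring] at this

lemma abel : ∀ (d : ℕ) (e c : Fin d → ℝ) (t : ℝ), Antitone e → (∀ i, e i ≤ t) →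
    (∀ m : ℕ, ∑ i : Fin d, (if m ≤ i.val then c i else 0) ≤ 0) → 0 ≤ ∑ i, (e i - t) * c i
  | 0, _, _, _, _, _, _ => by simp
  | d + 1, e, c, t, he, ht, h => by
    have h1 := abel d (fun i => e i.succ) (fun i => c i.succ) (e 0) (fun i j h => he (Fin.succ_le_succ_iff.2 h))
      (fun i => he (Fin.zero_le _)) fun m => by simpa [Fin.sum_univ_succ] using h (m + 1)
    have h2 := mul_nonneg_of_nonpos_of_nonpos (sub_nonpos.2 (ht 0)) (h 0)
    have : ∑ i, (e i - t) * c i = (e 0 - t) * ∑ i, c i + ∑ i, (e i - e 0) * c i := by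
      rw [Finset.mul_sum, ← Finset.sum_add_distrib]
      exact Finset.sum_congr rfl fun _ _ => by ring
    rw [this, Fin.sum_univ_succ fun i => (e i - e 0) * c i]
    simp only [zero_le, if_true] at h2
    linarith

lemma nrm {K : Type} [Fintype K] (R : K → Mat d) (h : ∑ k, (R k)ᴴ * R k = 1) (v : Fin d → ℂ) :
    ∑ k, ∑ i, Complex.normSq ((R k *ᵥ v) i) = ∑ i, Complex.normSq (v i) := by
  have a : ∀ w : Fin d → ℂ, ((∑ i, Complex.normSq (w i) : ℝ) : ℂ) = star w ⬝ᵥ w := fun w => by
    simp [dotProduct, Complex.normSq_eq_conj_mul_self]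
  apply Complex.ofReal_injective
  rw [Complex.ofReal_sum, a, Finset.sum_congr rfl fun k _ => a _]
  simp only [star_mulVec, ← dotProduct_mulVec, mulVec_mulVec]
  rw [← dotProduct_sum, ← sum_mulVec, h, one_mulVec]

lemma ineq {K : Type} [Fintype K] (R : K → Mat d) (h : ∑ k, (R k)ᴴ * R k = 1) (hR : ∀ k, (R k).BlockTriangular id)
    (e : Fin d → ℝ) (he : Antitone e) (v : Fin d → ℂ) :
    ∑ i, e i * Complex.normSq (v i) ≤ ∑ k, ∑ i, e i * Complex.normSq ((R k *ᵥ v) i) := by
  obtain ⟨t, ht⟩ := (Set.finite_range e).bddAbove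
  have h1 := abel d e (fun i => ∑ k, Complex.normSq ((R k *ᵥ v) i) - Complex.normSq (v i)) t he
    (fun i => ht ⟨i, rfl⟩) fun m => by
      have h2 := nrm R h fun i => if m ≤ i.val then v i else 0
      rw [Finset.sum_comm] at h2
      refine le_trans (Finset.sum_le_sum fun i _ => ?_) ((Finset.sum_sub_distrib _ _).trans (sub_eq_zero.2 h2)).le
      split_ifs with hi
      · have : ∀ k, (R k *ᵥ v) i = (R k *ᵥ fun i => if m ≤ i.val then v i else 0) i := fun k => by
          simp only [mulVec, dotProduct]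
          refine Finset.sum_congr rfl fun j _ => ?_
          split_ifs with hj
          · rfl
          · simp [hR k (show id j < id i from by simp only [id, Fin.lt_def]; omega)]
        simp only [this, le_refl]
      · simpa using Finset.sum_nonneg fun k _ => Complex.normSq_nonneg _
  have h2 := nrm R h v
  rw [Finset.sum_comm] at h2 ⊢
  simp only [sub_mul, mul_sub, Finset.sum_sub_distrib, ← Finset.mul_sum] at h1 ⊢
  rw [h2] at h1
  linarith

end Pool.Agent.H.MP_5b3ffa_mp
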