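import Pool.Agent.H.MP_5b3ffa_mp.A

set_option autoImplicit false

namespace Pool.Agent.H.MP_5b3ffa_mp
open Matrix NormedSpace Polynomial ComplexOrder

variable {d : ℕ}

lemma key (L : Submodule ℂ (Mat d)) (hs : ∀ A ∈ L, Aᴴ ∈ L) (hl : ∀ A ∈ L, ∀ B ∈ L, A * B - B * A ∈ L)
    (Q R T : Mat d) (hQ : Qᴴ * Q = 1) (hR : R.BlockTriangular id) (hT : Q * R * T = 1) (e : Fin d → ℝ) (he : Antitone e)
    (hZ : Q * R * diagonal (fun i => (e i : ℂ)) * T ∈ L) (A : Mat d) (hA : A.IsHermitian)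
    (h1 : Q * diagonal (fun i => (e i : ℂ)) * Qᴴ - A ∈ L) (h2 : ∀ W ∈ L, (W * A).trace = 0) : A = 0 := by
  obtain ⟨D, hD⟩ : ∃ D, D = diagonal fun i => (e i : ℂ) := ⟨_, rfl⟩
  rw [← hD] at hZ h1
  have hT' : T * (Q * R) = 1 := mul_eq_one_comm.1 hT
  have ri : Invertible R := invertibleOfLeftInverse R (T * Q) (by rw [mul_assoc, hT'])
  have tq : (T * Q).BlockTriangular id := by
    rw [← inv_eq_left_inv (show T * Q * R = 1 by rw [mul_assoc, hT'])]
    exact blockTriangular_inv_of_blockTriangular hR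
  obtain ⟨S, hS⟩ : ∃ S, S = Q * R := ⟨_, rfl⟩
  have qs : Qᴴ * S = R := by rw [hS, ← mul_assoc, hQ, one_mul]
  have tr : T * Q * R = 1 := by rw [mul_assoc, hT']
  rw [← hS] at hT hT' hZ
  have c1 : ∀ B : Mat d, S * (T * B) = B := fun B => by rw [← mul_assoc, hT, one_mul]
  have c2 : ∀ B : Mat d, T * (S * B) = B := fun B => by rw [← mul_assoc, hT', one_mul]
  let cj : Mat d →ₗ[ℂ] Mat d := LinearMap.mulLeftRight ℂ (S, T)
  have cja : ∀ B, cj B = S * B * T := fun _ => rfl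
  let m : Submodule ℂ (Mat d) :=
    { carrier := {B | ∀ W ∈ L, (W * B).trace = 0}
      add_mem' := fun ha hb W hW => by rw [mul_add, trace_add, ha W hW, hb W hW, add_zero]
      zero_mem' := fun W _ => by simp
      smul_mem' := fun c B hb W hW => by rw [Matrix.mul_smul, trace_smul, hb W hW, smul_zero] }
  have ad : ∀ B, cj (D * B - B * D) = S * D * T * cj B - cj B * (S * D * T) := fun B => by
    simp only [cja, mul_sub, sub_mul, mul_assoc, c2]
  let p : ℂ[X] := ∏ x ∈ Finset.univ.filter (fun x : Fin d × Fin d => e x.2 < e x.1), (X - C ((e x.1 : ℂ) - e x.2))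
  have p0 : ∀ i j, p.eval ((e i : ℂ) - e j) = 0 ↔ ∃ x : Fin d × Fin d, e x.2 < e x.1 ∧ e i - e j = e x.1 - e x.2 :=
    fun i j => by
      simp only [p, eval_prod, Finset.prod_eq_zero_iff, Finset.mem_filter, Finset.mem_univ, true_and, eval_sub, eval_X,
        eval_C]
      refine exists_congr fun x => and_congr_right fun _ => ?_
      rw [sub_eq_zero]; norm_cast
  have m1 := mask e (L.comap cj) (fun B hB => by
    rw [← hD, Submodule.mem_comap, ad]; exact hl _ hZ _ hB) p (T * (Q * D * Qᴴ - A - S * D * T) * S) (by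
    rw [Submodule.mem_comap, cja, mul_assoc T, c1, mul_assoc, hT, mul_one]; exact L.sub_mem h1 hZ)
  have m2 := mask e (m.comap cj) (fun B hB W hW => by
    have := hB _ (hl _ hW _ hZ)
    rw [← hD, ad]
    generalize S * D * T = Z at this ⊢
    rw [mul_sub, trace_sub, ← mul_assoc W (cj B), trace_mul_comm (W * cj B), ← mul_assoc, ← mul_assoc Z,
      ← trace_sub, ← sub_mul]
    exact this) p (T * A * S) (by
    rw [Submodule.mem_comap, cja, mul_assoc T, c1, mul_assoc, hT, mul_one]; exact h2)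
  have z : ∀ i j, ¬e j < e i → (T * (Q * D * Qᴴ - A - S * D * T) * S) i j = -(T * A * S) i j := fun i j h => by
    have : T * (Q * D * Qᴴ - A - S * D * T) * S = T * Q * (D * R - R * D) - T * A * S := by
      simp only [mul_sub, sub_mul, mul_assoc, c2, hT', qs, mul_one]
      rw [← mul_assoc Q R D, ← hS, c2]; abel
    rw [this, Matrix.sub_apply, mul_apply, Finset.sum_eq_zero, zero_sub]
    intro k _
    rw [hD, Matrix.sub_apply, diagonal_mul, mul_diagonal]
    by_cases a : k < i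
    · rw [tq a, zero_mul]
    by_cases b : j < k
    · simp [hR b]
    rw [show e k = e j from le_antisymm ((he (not_lt.1 a)).trans (not_lt.1 h)) (he (not_lt.1 b))]; ring
  obtain ⟨B, hB⟩ : ∃ B, B = T * A * S := ⟨_, rfl⟩
  rw [← hB] at z m2
  obtain ⟨F, hF⟩ : ∃ F : Mat d, F = of fun i j => p.eval ((e i : ℂ) - e j) * B i j := ⟨_, rfl⟩
  have f1 : cj F ∈ L := by
    rw [← Submodule.mem_comap, ← Submodule.neg_mem_iff]
    refine (congrArg (· ∈ L.comap cj) ?_).mp m1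
    ext i j
    by_cases h : e j < e i
    · simp [hF, (p0 i j).2 ⟨(i, j), h, rfl⟩]
    · simp only [hF, of_apply, z i j h, Matrix.neg_apply, mul_neg]
  have f2 : F = 0 := by
    have := trace_conjTranspose_mul_self_eq_zero_iff.1 ((hF ▸ m2) _ (hs _ f1))
    rw [← c2 F, ← mul_one (S * F), ← hT', ← mul_assoc (S * F), ← cja, this]; simp
  have b0 : ∀ i j, ¬e j < e i → B i j = 0 := fun i j h => by
    have : F i j = 0 := by rw [f2]; rfl
    rw [hF, of_apply, mul_eq_zero, p0] at this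
    refine this.resolve_left fun ⟨x, a, b⟩ => h (by linarith)
  refine trace_conjTranspose_mul_self_eq_zero_iff.1 ?_
  have : (B * B).trace = (A * A).trace := by
    rw [hB, mul_assoc T, mul_assoc T, trace_mul_comm]; simp only [mul_assoc, c1, hT, mul_one]
  rw [hA.eq, ← this, trace]
  refine Finset.sum_eq_zero fun i _ => ?_
  rw [diag_apply, mul_apply]
  refine Finset.sum_eq_zero fun j _ => ?_
  by_cases h : e j < e i
  · rw [b0 j i h.le.not_gt, mul_zero]
  · rw [b0 i j h, zero_mul]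

noncomputable def CFO {d D : ℕ} (g : Fin D → Matrix (Fin d) (Fin d) ℂ) : Submonoid (Matrix (Fin d) (Fin d) ℂ) :=
  Submonoid.closure ({M | ∃ X ∈ Submodule.span ℂ (Set.range g), M = exp X} ∪ {M | ∃ a : ℂ, a ≠ 0 ∧ M = a • 1})

noncomputable def purity {d D : ℕ} (g : Fin D → Matrix (Fin d) (Fin d) ℂ) (N : ℝ) (φ : Fin d → ℂ) : ℝ :=
  1 / N * ∑ i, (star φ ⬝ᵥ g i *ᵥ φ).re ^ 2

open scoped Matrix.Norms.Operator in
lemma nrml {D : ℕ} (g : Fin D → Mat d) (hl : ∀ A ∈ Submodule.span ℂ (Set.range g),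
    ∀ B ∈ Submodule.span ℂ (Set.range g), A * B - B * A ∈ Submodule.span ℂ (Set.range g)) (M : Mat d)
    (hM : M ∈ CFO g) : ∃ T, M * T = 1 ∧ ∀ A ∈ Submodule.span ℂ (Set.range g),
      M * A * T ∈ Submodule.span ℂ (Set.range g) := by
  induction hM using Submonoid.closure_induction with
  | mem x hx =>
    rcases hx with ⟨X, hX, rfl⟩ | ⟨a, ha, rfl⟩
    · refine ⟨exp (-X), by rw [← Matrix.exp_add_of_commute _ _ (Commute.refl X).neg_right]; simp, ?_⟩
      exact ad_exp _ (Submodule.closed_of_finiteDimensional _) X (hl X hX)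
    · exact ⟨a⁻¹ • 1, by simp [smul_smul, ha], fun A hA => by simpa [smul_smul, ha] using hA⟩
  | one => exact ⟨1, by simp, by simp⟩
  | mul x y _ _ hx hy =>
    obtain ⟨T, a, b⟩ := hx
    obtain ⟨U, c, e⟩ := hy
    refine ⟨U * T, by rw [mul_assoc, ← mul_assoc y, c, one_mul, a], fun A hA => ?_⟩
    simpa only [mul_assoc] using b _ (e A hA)

theorem main {D : ℕ} (g : Fin D → Mat d) (c N : ℝ) (hc : 0 < c) (hN : 0 < N) (hg : ∀ i, (g i).IsHermitian)
    (ho : ∀ i j, (g i * g j).trace = if i = j then (c : ℂ) else 0)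
    (hl : ∀ i j, g i * g j - g j * g i ∈ Submodule.span ℂ (Set.range g))
    {K : Type} [Fintype K] (M : K → Mat d) (hM : ∀ k, M k ∈ CFO g) (hs : ∑ k, (M k)ᴴ * M k = 1)
    (ψ : Fin d → ℂ) (hψ : star ψ ⬝ᵥ ψ = 1) (p : K → ℝ) (hp : ∀ k, p k = (star ψ ⬝ᵥ ((M k)ᴴ * M k) *ᵥ ψ).re) :
    purity g N ψ ≤ ∑ k, p k * purity g N (((√(p k) : ℝ) : ℂ)⁻¹ • M k *ᵥ ψ) := by
  obtain ⟨L, hL⟩ : ∃ L, L = Submodule.span ℂ (Set.range g) := ⟨_, rfl⟩
  have gL : ∀ i, g i ∈ L := fun i => hL ▸ Submodule.subset_span ⟨i, rfl⟩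
  have ex : ∀ A ∈ L, ∃ a : Fin D → ℂ, ∑ i, a i • g i = A := fun A hA =>
    (Submodule.mem_span_range_iff_exists_fun ℂ).1 (hL ▸ hA)
  have l1 : ∀ A ∈ L, ∀ B ∈ L, A * B - B * A ∈ L := fun A hA B hB => by
    obtain ⟨a, rfl⟩ := ex A hA
    obtain ⟨b, rfl⟩ := ex B hB
    rw [Finset.sum_mul_sum, Finset.sum_mul_sum, Finset.sum_comm (f := fun i j => (b i • g i) * (a j • g j)),
      ← Finset.sum_sub_distrib]
    refine L.sum_mem fun i _ => ?_
    rw [← Finset.sum_sub_distrib]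
    refine L.sum_mem fun j _ => ?_
    rw [smul_mul_smul_comm, smul_mul_smul_comm, mul_comm (b j), ← smul_sub]
    exact L.smul_mem _ (hL ▸ hl i j)
  have l2 : ∀ A ∈ L, Aᴴ ∈ L := fun A hA => by
    obtain ⟨a, rfl⟩ := ex A hA
    rw [conjTranspose_sum]
    exact L.sum_mem fun i _ => by rw [conjTranspose_smul, (hg i).eq]; exact L.smul_mem _ (gL i)
  have tr : ∀ (a : Fin D → ℂ) j, (g j * ∑ i, a i • g i).trace = a j * c := fun a j => by
    simp [Finset.mul_sum, trace_sum, ho]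
  have t2 : ∀ (a : Fin D → ℝ), ((∑ i, (a i : ℂ) • g i) * ∑ i, (a i : ℂ) • g i).trace = (c * ∑ i, a i ^ 2 : ℝ) :=
    fun a => by
      rw [Finset.sum_mul, trace_sum]
      simp only [Matrix.smul_mul, trace_smul, tr]
      rw [Finset.mul_sum]
      push_cast
      exact Finset.sum_congr rfl fun _ _ => by rw [smul_eq_mul]; ring
  have hh : ∀ a : Fin D → ℝ, (∑ i, (a i : ℂ) • g i).IsHermitian := fun a => by
    simp [IsHermitian, conjTranspose_sum, (hg _).eq]
  have qf : ∀ (a : Fin D → ℝ) (v : Fin d → ℂ), (star v ⬝ᵥ (∑ i, (a i : ℂ) • g i) *ᵥ v).re =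
      ∑ i, a i * (star v ⬝ᵥ g i *ᵥ v).re := fun a v => by
    simp [sum_mulVec, dotProduct_sum, smul_mulVec]
  have qd : ∀ (Q : Mat d) (e : Fin d → ℝ) (v : Fin d → ℂ),
      (star v ⬝ᵥ (Q * diagonal (fun i => (e i : ℂ)) * Qᴴ) *ᵥ v).re = ∑ i, e i * Complex.normSq ((Qᴴ *ᵥ v) i) :=
    fun Q e v => by
      rw [← mulVec_mulVec, ← mulVec_mulVec, dotProduct_mulVec, ← conjTranspose_conjTranspose Q, ← star_mulVec,
        conjTranspose_conjTranspose]
      simp only [dotProduct, mulVec_diagonal, Complex.re_sum]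
      exact Finset.sum_congr rfl fun _ _ => by simp [Complex.normSq_apply]; ring
  obtain ⟨a, ha⟩ : ∃ a : Fin D → ℝ, ∀ i, a i = (star ψ ⬝ᵥ g i *ᵥ ψ).re := ⟨_, fun _ => rfl⟩
  obtain ⟨U, e, hU, he, hX⟩ := spec _ (hh a)
  have hU' : U * Uᴴ = 1 := mul_eq_one_comm.1 hU
  choose Q R hQ hR hS using fun k => qr (M k * U)
  choose T hT hT' using fun k => nrml g (hL ▸ l1) (M k) (hM k)
  have td : ∀ V : Mat d, Vᴴ * V = 1 → (V * diagonal (fun i => (e i : ℂ)) * Vᴴ * (V * diagonal (fun i => (e i : ℂ)) * Vᴴ)).trace =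
      (diagonal (fun i => (e i : ℂ)) * diagonal (fun i => (e i : ℂ))).trace := fun V hV => by
    rw [mul_assoc, mul_assoc, trace_mul_comm]
    simp only [mul_assoc, hV, mul_one, ← mul_assoc Vᴴ, one_mul]
  have hy : ∀ k, ∃ y : Fin D → ℝ, Q k * diagonal (fun i => (e i : ℂ)) * (Q k)ᴴ = ∑ i, (y i : ℂ) • g i ∧
      ∑ i, y i ^ 2 = ∑ i, a i ^ 2 := fun k => by
    obtain ⟨Y, hY⟩ : ∃ Y, Y = Q k * diagonal (fun i => (e i : ℂ)) * (Q k)ᴴ := ⟨_, rfl⟩
    have hY' : Y.IsHermitian := hY ▸ isHermitian_mul_mul_conjTranspose _ (by simp [isHermitian_diagonal_iff, IsSelfAdjoint])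
    have re : ∀ i, (((g i * Y).trace.re / c : ℝ) : ℂ) * c = (g i * Y).trace := fun i => by
      have : (starRingEnd ℂ) (g i * Y).trace = (g i * Y).trace := by
        rw [starRingEnd_apply, ← trace_conjTranspose, conjTranspose_mul, hY'.eq, (hg i).eq, trace_mul_comm]
      rw [← Complex.ofReal_mul, div_mul_cancel₀ _ hc.ne', Complex.conj_eq_iff_re.1 this]
    have k0 := key L l2 l1 (Q k) (R k) (Uᴴ * T k) (hQ k) (hR k)
      (by rw [← hS, mul_assoc, ← mul_assoc U, hU', one_mul, hT]) e he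
      (by
        have := hT' k _ (hL ▸ L.sum_mem (t := Finset.univ) fun i _ => L.smul_mem (a i : ℂ) (gL i))
        rw [hX, ← hL] at this
        simpa only [← hS, mul_assoc] using this)
      (Y - ∑ i, (((g i * Y).trace.re / c : ℝ) : ℂ) • g i) (hY'.sub (hh _))
      (by rw [← hY, sub_sub_cancel]; exact L.sum_mem fun i _ => L.smul_mem _ (gL i))
      (fun W hW => by
        obtain ⟨b, rfl⟩ := ex W hW
        rw [Finset.sum_mul, trace_sum]
        refine Finset.sum_eq_zero fun i _ => ?_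
        rw [Matrix.smul_mul, trace_smul, mul_sub, trace_sub, tr, re, sub_self, smul_zero])
    rw [sub_eq_zero, hY] at k0
    refine ⟨_, k0, mul_left_cancel₀ hc.ne' (Complex.ofReal_injective ?_)⟩
    rw [← t2, ← t2, ← k0, hX, td _ hU, td _ (hQ k)]
  choose y hy hy' using hy
  have r1 : ∀ k, R k = (Q k)ᴴ * (M k * U) := fun k => by rw [hS, ← mul_assoc, hQ, one_mul]
  have i1 := ineq R (by
    have : ∀ k, (R k)ᴴ * R k = Uᴴ * ((M k)ᴴ * M k) * U := fun k => by
      rw [mul_assoc, mul_assoc, ← mul_assoc, ← conjTranspose_mul, hS, conjTranspose_mul, mul_assoc, ← mul_assoc _ (Q k),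
        hQ, one_mul]
    simp only [this]
    rw [← Finset.sum_mul, ← Finset.mul_sum, hs, mul_one, hU]) hR e he (Uᴴ *ᵥ ψ)
  rw [← qd, ← hX, qf] at i1
  have r2 : ∀ k, R k *ᵥ Uᴴ *ᵥ ψ = (Q k)ᴴ *ᵥ M k *ᵥ ψ := fun k => by
    rw [r1, mulVec_mulVec, mulVec_mulVec, mul_assoc, mul_assoc, hU', mul_one]
  simp only [r2, ← qd, hy, qf, ← ha, ← pow_two] at i1
  have sp : ∑ k, p k = 1 := by
    simp only [hp]
    rw [← Complex.re_sum, ← dotProduct_sum, ← sum_mulVec, hs, one_mulVec, hψ]; rfl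
  have pp : ∀ k, 0 < p k := fun k => by
    have h0 : M k *ᵥ ψ ≠ 0 := fun h => by
      have : ψ = 0 := by rw [← one_mulVec ψ, ← mul_eq_one_comm.1 (hT k), ← mulVec_mulVec, h, mulVec_zero]
      simp [this] at hψ
    rw [hp, ← mulVec_mulVec, dotProduct_mulVec, ← star_mulVec]
    exact (Complex.lt_def.1 (dotProduct_star_self_pos_iff.2 h0)).1
  have sc : ∀ k i, (star (M k *ᵥ ψ) ⬝ᵥ g i *ᵥ M k *ᵥ ψ).re = p k *
      (star (((√(p k) : ℝ) : ℂ)⁻¹ • M k *ᵥ ψ) ⬝ᵥ g i *ᵥ (((√(p k) : ℝ) : ℂ)⁻¹ • M k *ᵥ ψ)).re := fun k i => by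
    rw [star_smul, mulVec_smul, smul_dotProduct, dotProduct_smul, smul_smul, ← Complex.ofReal_inv, Complex.star_def,
      Complex.conj_ofReal, ← Complex.ofReal_mul, ← mul_inv, Real.mul_self_sqrt (pp k).le, smul_eq_mul,
      Complex.re_ofReal_mul, mul_inv_cancel_left₀ (pp k).ne']
  simp only [purity, ← ha, mul_left_comm (p _), ← Finset.mul_sum]
  refine mul_le_mul_of_nonneg_left ?_ (by positivity)
  simp only [sc] at i1
  have i2 : ∀ (k : K) (m : Fin D → ℝ), ∑ i, y k i * (p k * m i) ≤ p k * (∑ i, a i ^ 2) / 2 + p k * (∑ i, m i ^ 2) / 2 :=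
    fun k m => by
      rw [← hy' k, Finset.mul_sum, Finset.mul_sum, Finset.sum_div, Finset.sum_div, ← Finset.sum_add_distrib]
      exact Finset.sum_le_sum fun i _ => by nlinarith [mul_nonneg (pp k).le (sq_nonneg (y k i - m i))]
  have i3 := i1.trans (Finset.sum_le_sum fun k _ => i2 k _)
  rw [Finset.sum_add_distrib, ← Finset.sum_div, ← Finset.sum_div, ← Finset.sum_mul, sp] at i3
  linarith

end Pool.Agent.H.MP_5b3ffa_mp
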